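import Pool.Agent.Helper56.LOW.Low
import Pool.Agent.Helper56.STL.Yy1

/-! The row [YY1] for the class `CL` of helper75. -/

set_option autoImplicit false

namespace Pool.Agent.Helper56.LOW

open Finset Filter Topology Pool.Agent.Helper69.RK Pool.Agent.Helper31.EC Pool.Agent.Helper31.EC.Sp
open Pool.Agent.Helper31.EC.QS Pool.Agent.Helper40.EL Pool.Agent.Helper84.MT Pool.Agent.Helper36.AM
open Pool.Agent.Helper13.AM Pool.Agent.Helper10.BLD
open Pool.Agent.Helper56.STL (CvT)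
open Pool.Agent.Helper75.CC (Dt SL sw CC CL)

noncomputable section

variable {S : Sp}

/-- curve types are data of the class `CL` -/
theorem cl_of_cvt {M k g r : ℕ} {s : MSys S (M + 2) (lin g) (Fin r)} {i : Fin r} (h : CvT (k + 1) s i) :
    CL (M + 2) k S g r s := by
  obtain ⟨W, a, hw, hf, ha, he⟩ := h
  have hd : ∀ b : ℝ, b ≤ 1 → PLe (rp (dg (QS.mk (TR.cor s.Q 0)) b)) (fun n => fc (Setoid.ker ((s.Q.co 0).cellv b n))) ∧
      PLe (fun n => fc (Setoid.ker ((s.Q.co 0).cellv b n))) (rp (dg (QS.mk (TR.cor s.Q 0)) b)) :=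
    fun b hb => dg_rp (TR.cor s.Q 0) hb
  have hsl : SL s i 0 (rpo W).1 := by
    refine ⟨fun b h0 h1 => (hw b h0 h1).1.trans ?_, ?_⟩
    · refine (rp_sup _ _).1.trans ?_
      have e1 : sw s.Q 0 (rpo W).1 b = fun n => rp W n ⊔ fc (Setoid.ker ((s.Q.co 0).cellv b n)) := rfl
      rw [e1]
      exact PLe.sup_le (PLe_of_le fun n => le_sup_left) ((hd b h1).1.trans (PLe_of_le fun n => le_sup_right))
    · have hb : Part.Bd (fun n => fc (Setoid.ker ((s.Q.co 0).cellv 1 n))) := rpI_Bd (((s.Q.co 0).bdd 1).toInf)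
      have h1 : hr (fun n => fc (Setoid.ker ((s.Q.co 0).cellv 1 n))) (rp W) = 1 := by
        refine Eq.trans ?_ ((hr_rp _ _).trans hf)
        exact le_antisymm (hr_mono hb (rp_Bd _) (hd 1 le_rfl).2) (hr_mono (rp_Bd _) hb (hd 1 le_rfl).1)
      have h2 := hb.tendsto (rp W)
      rw [h1] at h2
      exact h2
  choose a' ha' using fun l => mk_surj (a l)
  refine CL.of_PLe (t := 0) (u := 1) rfl rfl hsl (TR.vec fun l : Fin (k + 1) => a' l) ?_ ?_
  · have h1 : (TR.vec fun l : Fin (k + 1) => a' l).dg 1 ≤ W := by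
      apply TR.vec_dg_le
      intro l
      rw [← dg_mk _ le_rfl, ha']
      exact ha l
    have h2 := (rp_rpI (((TR.vec fun l : Fin (k + 1) => a' l).bdd 1).toInf)).2
    rw [← io_eq] at h2
    exact h2.trans (rp_mono h1)
  · have h1 : QS.mk (TR.cor s.Q 1) = QS.mk (∑ l ∈ range (k + 1), a' l * TR.cor s.Q 0 ^ l) := by
      rw [he, map_sum]
      exact Finset.sum_congr rfl fun l _ => by rw [map_mul, map_pow, ha']
    rw [mk_eq] at h1
    obtain ⟨E, K, hE, hK, h2⟩ := h1
    refine ⟨K, hK, hE.mono ?_⟩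
    filter_upwards [h2] with n hn ω hω h3
    have h4 := hn ω hω h3
    have e1 : TR.ev (∑ l ∈ range (k + 1), a' l * TR.cor s.Q 0 ^ l) n ω =
        ∑ l : Fin (k + 1), (TR.vec fun l : Fin (k + 1) => a' l).v n ω l * s.Q.v n ω 0 ^ (l : ℕ) := by
      rw [← TR.evh_apply, map_sum, Finset.sum_range]
      refine Finset.sum_congr rfl fun l _ => ?_
      rw [map_mul, map_pow]
      rfl
    rw [e1] at h4
    exact h4

/-- **[YY1]** for the class `CL` -/
theorem st_yy1_CL {M : ℕ} (hd : DGR (M + 2)) : ST_YY1 CL M := st_yy1 hd fun _ _ _ _ h => cl_of_cvt h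

end

end Pool.Agent.Helper56.LOW
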