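import Pool.Agent.Helper56.LOW.Tr
import Pool.Agent.Helper63.MT.Imu
import Pool.Agent.Helper32.PLK.Row
import Pool.Agent.Helper99.BLD.Vwt

/-! LOW, part 3: the corners over a homogeneous class, all members of which have a curve type of low degree. -/

set_option autoImplicit false

namespace Pool.Agent.Helper56.LOW

open Finset Filter Topology Pool.Agent.Helper69.RK Pool.Agent.Helper31.EC Pool.Agent.Helper31.EC.Sp
open Pool.Agent.Helper31.EC.QS Pool.Agent.Helper40.EL Pool.Agent.Helper84.MT Pool.Agent.Helper36.AM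
open Pool.Agent.Helper13.AM Pool.Agent.Helper10.BLD
open Pool.Agent.Helper57.TA (rcst dg_rcst qs_rcst)
open Pool.Agent.Helper68.VW (PLe_pull rp_map_PLe)
open Pool.Agent.Helper99.BLD (rp_pull spl_bij)
open Pool.Agent.Helper63.MT (typ_all)
open Pool.Agent.Helper32.PLK (pr_pos_ev)

noncomputable section

variable {S T : Sp}

theorem not_typ_false : ¬ Typ (S := S) (fun _ _ => False) := by
  intro h
  unfold Typ at h
  have h3 : ∀ k, mass (res (S.F k).μ (fun _ => ¬ False)) = 1 := by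
    intro k
    have h4 : res (S.F k).μ (fun _ => ¬ False) = (S.F k).μ := by
      funext ω
      exact res_pos _ _ ω not_false
    rw [h4, (S.F k).ms]
  simp only [h3] at h
  exact one_ne_zero (tendsto_nhds_unique tendsto_const_nhds h)

/-- one of finitely many events has positive probability -/
theorem exists_pos {ι : Type} (D : Finset ι) {A : ι → ∀ n, (S.F n).Ω → Prop}
    (h : Typ (fun n ω => ∃ e ∈ D, A e n ω)) : ∃ e ∈ D, 0 < ul (S.pr (A e)) := by
  by_contra hc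
  push Not at hc
  have h1 : ∀ e : D, Typ (fun n ω => ¬ A e.1 n ω) := by
    intro e
    rcases typ_or (fun n ω => ¬ A e.1 n ω) with h2 | h2
    · exact h2
    · exfalso
      simp only [not_not] at h2
      exact absurd h2 (not_lt.mpr (hc e.1 e.2))
  refine not_typ_false (S := S) (((typ_all h1).and h).mono (Eventually.of_forall fun n ω _ hω => ?_))
  obtain ⟨h5, e, he, h6⟩ := hω
  exact h5 ⟨e, he⟩ h6

theorem PLe_rp_sup {ι : Type} (D : Finset ι) (x : S.L) (f : ι → S.L) {L : Part S} (hx : PLe (rp x) L)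
    (hf : ∀ i ∈ D, PLe (rp (f i)) L) : PLe (rp (x ⊔ D.sup f)) L := by
  classical
  induction D using Finset.induction_on with
  | empty =>
    rw [Finset.sup_empty, sup_bot_eq]
    exact hx
  | insert a D ha ih =>
    have h1 := ih fun i hi => hf i (Finset.mem_insert_of_mem hi)
    have h2 : x ⊔ (insert a D).sup f = f a ⊔ (x ⊔ D.sup f) := by
      rw [Finset.sup_insert, sup_left_comm]
    rw [h2]
    exact (rp_sup _ _).1.trans (PLe.sup_le (hf a (Finset.mem_insert_self a D)) h1)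

/-- nondegenerate functions on their event -/
theorem unit_ev {f : TR S} {K : ℕ → ℝ} (hK : S.Sub K) (hA : 0 < ul (S.pr fun n ω => 1 ≤ K n * |TR.ev f n ω|)) :
    IsUnit (QS.rest _ hA (QS.mk f)) := by
  rw [QS.rest_mk, isUnit_mk]
  refine ⟨K, hK, Typ_true.mono ?_⟩
  filter_upwards [pr_pos_ev hA] with n hn ω hω _
  exact ((S.F n).rest_supp _ ω hω).2 hn

section

variable {M g r N r' : ℕ} {w : Fin (M + 2) → ℝ} {ρ : ℝ}
  {TT : ∀ S : Sp, MSys S (M + 2) (lin g) (Fin r) → Prop}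

theorem f1 (i : Fin (0 + 1)) : i = 0 := Subsingleton.elim (α := Fin 1) i 0

theorem spl_b0 (P : Spl w 0 N) : P.bI 0 = 0 := by
  rcases P.cov 0 with ⟨i, h⟩ | ⟨j, h⟩
  · rw [f1 i] at h
    exact h
  · have h1 := P.bv 0 j
    rw [h] at h1
    exact absurd h1 (Fin.not_lt_zero _)

theorem low_cco (P : Spl w 0 N) (hcl : Cls 0 N r' P.w P.z ρ (CCo P ρ TT r'))
    (hNR : Helper13.AM.NR (CCo P ρ TT r'))
    (htrn : ∀ S s, TT S s → ∀ (e : ℝ) (he : 0 < e) (h1 : e ≤ 1), TT (S.chg S.tr e he) (s.trn e he h1))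
    {k : ℕ} (hCQ : ∀ S s, TT S s → ∃ (i : Fin r) (L : Part S) (D : Finset (Fin (M + 2) →₀ ℕ))
      (F : (Fin (M + 2) →₀ ℕ) → TR S) (a : ℕ → TR S), CQ k s i 0 L D F a)
    {T : Sp} {c : CD T 0 N r'} (hc : CCo P ρ TT r' T c) : ∃ l, P.w l ≤ k + 1 := by
  classical
  obtain ⟨E, hE, S, t, e, he, he1, p, κ, V, A, hTyp, ht, hze, hdet, hq, hR, -, -, h0⟩ := hc.vw
  obtain ⟨i, L, D, F, a, hC⟩ := hCQ _ _ (htrn S t ht e he he1)
  have hC' := hC.pull p
  have hcE := hcl.rest _ _ hc E hE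
  have hx1 : ∀ i, (c.rest E hE).xi i = restL E hE (c.xi i) := CD.rest_xi E hE (hcl.ax _ _ hc).ln.bdd
  have hO1 : (c.rest E hE).O = restL E hE c.O := CD.rest_O E hE
  rw [← hO1] at h0
  -- coordinates
  obtain ⟨x, hx⟩ : ∃ x : Fin (M + 2) → QS (T.rest E), x = fun j => qc ((t.trn e he he1).pull p).Q j := ⟨_, rfl⟩
  have hA0 : A 0 0 ≠ 0 := by
    have h1 := hdet.ne_zero
    rwa [show A.det = A 0 0 from Matrix.det_unique (n := Fin 1) A] at h1
  have hq0 : (c.rest E hE).q 0 = rcst _ (A 0 0) * x 0 := by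
    have h1 : (c.rest E hE).q 0 = p.qs (cQ S.tr e he he1 (qA P A t.Q 0)) := hq 0
    have h2 : qA P A t.Q 0 = rcst S (A 0 0) * qc t.Q 0 := by
      unfold qA
      rw [Fin.sum_univ_one, spl_b0 P]
    rw [h1, h2, map_mul, map_mul, hx]
    rfl
  have hRj : ∀ j, (c.rest E hE).R j = x (P.vI j) := by
    intro j
    rw [hx]
    exact hR j
  -- the places
  obtain ⟨σ, hσ⟩ : ∃ σ : Fin (M + 2) ≃ Fin (0 + 1) ⊕ Fin N, σ = (Equiv.ofBijective _ (spl_bij P)).symm := ⟨_, rfl⟩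
  have hσ' : ∀ y, σ (Sum.elim P.bI P.vI y) = y := by
    intro y
    rw [hσ, Equiv.symm_apply_eq]
    rfl
  have hσ0 : σ 0 = Sum.inl 0 := by
    rw [← spl_b0 P]
    exact hσ' (Sum.inl 0)
  obtain ⟨s, hs⟩ : ∃ s : Fin (M + 2) → ℝ, s = fun j => Sum.elim (fun _ => (A 0 0)⁻¹) (fun _ => 1) (σ j) := ⟨_, rfl⟩
  have hs0 : ∀ j, s j ≠ 0 := by
    intro j
    rw [hs]
    show Sum.elim _ _ (σ j) ≠ _
    rcases σ j with y | y
    · exact inv_ne_zero hA0
    · exact one_ne_zero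
  have hxs : ∀ j, x j = rcst _ (s j) * (c.rest E hE).pt (σ j) := by
    intro j
    obtain ⟨y, rfl⟩ := (spl_bij P).surjective j
    rw [hs]
    show _ = rcst _ (Sum.elim _ _ (σ _)) * _
    rw [hσ']
    rcases y with y | y
    · rw [f1 y, Sum.elim_inl, Sum.elim_inl, spl_b0 P]
      show _ = _ * (c.rest E hE).q 0
      rw [hq0, ← mul_assoc, ← map_mul, inv_mul_cancel₀ hA0, map_one, one_mul]
    · rw [Sum.elim_inr, Sum.elim_inr, map_one, one_mul]
      exact (hRj y).symm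
  have hdx : dg (x 0) 1 ≤ dg ((c.rest E hE).q 0) 1 := by
    have h1 := hxs 0
    rw [hσ0] at h1
    rw [h1]
    have h2 : rcst _ (s 0) * (c.rest E hE).pt (Sum.inl 0) ∈ Kn (T.rest E) 1 le_rfl (dg ((c.rest E hE).q 0) 1) := by
      refine Subring.mul_mem _ ?_ (mem_Kn.mpr le_rfl)
      rw [mem_Kn, dg_rcst]
      exact bot_le
    exact mem_Kn.mp h2
  have hfull : 1 ≤ hr (rp (dg (x 0) 1)) (L.pull p) := by
    have h1 := hC'.full
    rw [hx]
    exact h1
  -- the type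
  rcases h0 rfl i with h1 | ⟨i₁, h1⟩
  · exfalso
    have h2 : PLe (rp (dg (x 0) 1)) (L.pull p) := by
      refine (rp_mono (hdx.trans ?_)).trans (h1.trans hC'.win)
      exact (dg_le_vd _ _ _).trans le_sup_left
    have h3 := hr_zero_of_PLe h2
    linarith
  have h2 : PLe (rp ((c.rest E hE).xi i₁)) (L.pull p) := by
    refine PLe.trans (rp_mono ?_) ((h1 0 le_rfl zero_le_one).trans hC'.win)
    rw [hx1]
    exact restL_mono E hE le_sup_left
  obtain ⟨Λ, hΛ⟩ : ∃ Λ : (T.rest E).L, Λ = (c.rest E hE).xi i₁ ⊔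
    (range (k + 1)).sup fun l => dg (QS.mk (p.tr (a l))) 1 := ⟨_, rfl⟩
  have h3 : PLe (rp Λ) (L.pull p) := by
    rw [hΛ]
    exact PLe_rp_sup _ _ _ h2 fun l hl => hC'.ha l (Nat.lt_succ_iff.mp (Finset.mem_range.mp hl))
  have h4 : 1 ≤ h (dg ((c.rest E hE).q 0) 1) Λ := by
    have h5 := hr_anti (rp_Bd (dg (x 0) 1)) h3
    rw [hr_rp] at h5
    have h6 : h (dg (x 0) 1) Λ ≤ h (dg ((c.rest E hE).q 0) 1) Λ := h_mono hdx
    linarith
  -- the coefficient
  obtain ⟨K, hK, hT⟩ := hC'.nd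
  have hT' : Typ (S := T.rest E) (fun n ω => ∃ e ∈ D.filter fun e => ∃ j, j ≠ 0 ∧ e j ≠ 0,
      1 ≤ K n * |TR.ev (p.tr (F e)) n ω|) := by
    refine hT.mono (Eventually.of_forall fun n ω _ hω => ?_)
    obtain ⟨e, he, h5, h6⟩ := hω
    exact ⟨e, Finset.mem_filter.mpr ⟨he, h5⟩, h6⟩
  obtain ⟨e0, he0, hpos⟩ := exists_pos _ hT'
  rw [Finset.mem_filter] at he0
  obtain ⟨he0, j0, hj0, hej0⟩ := he0
  obtain ⟨j, hj⟩ : ∃ j, σ j0 = Sum.inr j := by
    rcases h5 : σ j0 with y | y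
    · exfalso
      apply hj0
      apply σ.injective
      rw [h5, hσ0, f1 y]
    · exact ⟨y, rfl⟩
  obtain ⟨A', hA'⟩ : ∃ A' : ∀ n, ((T.rest E).F n).Ω → Prop, A' = fun n ω => 1 ≤ K n * |TR.ev (p.tr (F e0)) n ω| :=
    ⟨_, rfl⟩
  rw [← hA'] at hpos
  have hcc := hcl.rest _ _ hcE A' hpos
  have hx2 := CD.rest_xi (c := c.rest E hE) A' hpos (hcl.ax _ _ hcE).ln.bdd i₁
  refine low_pt (hcl.ax _ _ hcc) (hNR _ _ hcc) (σ := σ) σ.injective hσ0 hs0
    (x := fun j => QS.rest A' hpos (x j)) (fun j => ?_) D (fun e => QS.rest A' hpos (QS.mk (p.tr (F e)))) (fun e => ?_)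
    (fun l => QS.rest A' hpos (QS.mk (p.tr (a l)))) k i₁ (Λ := restL A' hpos Λ) ?_ ?_ (fun l hl => ?_) ?_ he0 hj hej0 ?_
  · show QS.rest A' hpos (x j) = _
    rw [hxs j, map_mul]
    congr 1
    rcases σ j with y | y
    · rfl
    · rfl
  · rw [QS.rest_dg, ← restL_bot A' hpos]
    exact restL_mono A' hpos (hC'.hF e)
  · rw [hx2, hΛ]
    exact restL_mono A' hpos le_sup_left
  · apply le_antisymm (h_dg_le_one _ _)
    have h5 := Pool.Agent.Helper5.DO.h_rest_ge A' hpos h4 (fun hE' => by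
      rw [← QS.rest_dg]
      exact h_dg_le_one _ _)
    rw [← QS.rest_dg] at h5
    exact h5
  · rw [QS.rest_dg]
    apply restL_mono
    rw [hΛ]
    exact (Finset.le_sup (f := fun l => dg (QS.mk (p.tr (a l))) 1)
      (Finset.mem_range.mpr (Nat.lt_succ_iff.mpr hl))).trans le_sup_right
  · have h5 := congrArg (QS.rest A' hpos) hC'.eq
    simp only [map_sum, map_mul, map_prod, map_pow] at h5
    rw [hx]
    exact h5
  · subst hA'
    exact unit_ev hK hpos

end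

end

end Pool.Agent.Helper56.LOW
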