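import Pool.Agent.Helper56.LOW.Lco
import Pool.Agent.Helper75.CC.Def
import Pool.Agent.Helper10.BLD.Asm

/-! LOW, part 4: the data of the class `CC k` as a curve type of low degree; the row `LOW`. -/

set_option autoImplicit false

namespace Pool.Agent.Helper56.LOW

open Finset Filter Topology Pool.Agent.Helper69.RK Pool.Agent.Helper31.EC Pool.Agent.Helper31.EC.Sp
open Pool.Agent.Helper31.EC.QS Pool.Agent.Helper40.EL Pool.Agent.Helper84.MT Pool.Agent.Helper36.AM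
open Pool.Agent.Helper13.AM Pool.Agent.Helper10.BLD
open Pool.Agent.Helper75.CC (Dt SL sw CC)

noncomputable section

variable {S : Sp}

theorem PLe_ev {A B : Part S} (h : ∀ᶠ n in UF, A n ≤ B n) : PLe A B :=
  (Nul_zero S).of_le (Eventually.of_forall fun _ => h_nonneg _ _) (h.mono fun _ hn => (h_zero hn).le)

/-- digits as a part -/
theorem dg_rp (f : TR S) {r : ℝ} (hr : r ≤ 1) :
    PLe (rp (dg (QS.mk f) r)) (fun n => fc (Setoid.ker ((TR.vec fun _ : Fin 1 => f).cellv r n))) ∧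
      PLe (fun n => fc (Setoid.ker ((TR.vec fun _ : Fin 1 => f).cellv r n))) (rp (dg (QS.mk f) r)) := by
  have h1 : dg (QS.mk f) r = cl (((TR.vec fun _ : Fin 1 => f).bdd r).toInf) := by
    rw [dg_mk f hr]
    exact io_eq _
  rw [h1]
  exact rp_rpI _

/-- literal functions of a partition -/
theorem dg_fn {f : TR S} {L : ∀ n, Setoid (S.F n).Ω} (hf : ∀ᶠ n in UF, ∀ ω ω', (S.F n).μ ω ≠ 0 → (S.F n).μ ω' ≠ 0 →
    (S.F n).Z ω ω' → L n ω ω' → TR.ev f n ω = TR.ev f n ω') : PLe (rp (dg (QS.mk f) 1)) (fun n => fc (L n)) := by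
  refine (dg_rp f le_rfl).1.trans (PLe_ev ?_)
  filter_upwards [hf] with n hn
  refine fc_le fun ω ω' h1 h2 h3 h4 => ?_
  show cell (S.dl 1 n) (fun _ : Fin 1 => TR.ev f n ω) = cell (S.dl 1 n) (fun _ : Fin 1 => TR.ev f n ω')
  rw [hn ω ω' h1 h2 h3 h4]

/-- functions of rate zero -/
theorem dg_nul {f : TR S} {L : ∀ n, Setoid (S.F n).Ω} (hf : ∀ᶠ n in UF, ∀ ω ω', (S.F n).μ ω ≠ 0 → (S.F n).μ ω' ≠ 0 →
    (S.F n).Z ω ω' → L n ω ω' → TR.ev f n ω = TR.ev f n ω') (hL : Nul S fun n => H (fc (L n) : FL (S.F n))) :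
    dg (QS.mk f) 1 ≤ ⊥ := by
  rw [← PLe_rp]
  exact (dg_fn hf).trans (hL.of_le (Eventually.of_forall fun _ => h_nonneg _ _)
    (Eventually.of_forall fun _ => h_le_H _ _))

section

variable {M : ℕ} {E : ℕ → ℕ} {ι : Type} {k : ℕ} {t : Fin M} {W : ℝ} {s : MSys S M E ι}

theorem dt_mem {m : Fin M →₀ ℕ} (hm : ∑ j, (m j : ℝ) * (1 : ℝ) ≤ W) :
    m ∈ Finset.Iic (Finsupp.equivFunOnFinite.symm fun _ : Fin M => ⌊W⌋₊) := by
  rw [Finset.mem_Iic]
  intro j
  show m j ≤ ⌊W⌋₊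
  apply Nat.le_floor
  refine le_trans ?_ hm
  simp only [mul_one]
  exact Finset.single_le_sum (f := fun j => (m j : ℝ)) (fun _ _ => Nat.cast_nonneg _) (mem_univ j)

/-- the coefficients of `Φ` as tame functions -/
def Dt.tF (d : Dt k t (fun _ => 1) W s) (m : Fin M →₀ ℕ) : TR S := ⟨fun n ω => (d.Φ n ω).coeff m, by
  obtain ⟨K, hK, h⟩ := d.bΦ
  exact ⟨K, hK, h.mono fun n hn ω hω => hn ω hω m⟩⟩

/-- the coefficients of the polynomial in `x_t` as tame functions -/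
def Dt.ta (d : Dt k t (fun _ => 1) W s) (l : ℕ) : TR S := ⟨fun n ω => if h : l < k + 1 then d.a n ω ⟨l, h⟩ else 0, by
  obtain ⟨K, hK, h⟩ := d.ba
  refine ⟨K, hK, ?_⟩
  filter_upwards [h, hK.1] with n hn h0 ω hω
  split_ifs with h1
  · exact hn ω hω _
  · rw [abs_zero]
    exact h0⟩

/-- **the data of `CC k` as a curve type** -/
theorem Dt.cq (d : Dt k t (fun _ => 1) W s) : CQ k s d.i t (fun n => fc (d.L n))
    (Finset.Iic (Finsupp.equivFunOnFinite.symm fun _ : Fin M => ⌊W⌋₊)) (Dt.tF d) (Dt.ta d) where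
  win := by
    refine (d.sl.win 0 le_rfl zero_le_one).trans ?_
    have h1 : sw s.Q t d.L 0 = fun n => fc (d.L n) ⊔ fc (Setoid.ker ((s.Q.co t).cellv 0 n)) := rfl
    rw [h1]
    refine PLe.sup_le (PLe.refl _) ((dg_rp (TR.cor s.Q t) zero_le_one).2.trans ?_)
    refine PLe_of_hr (rp_Bd _) ?_
    refine (hr_anti (B := rp ⊥) (rp_Bd _) ?_).trans ?_
    · have h2 : h (⊥ : S.L) ⊥ = 0 := by
        rw [← hr_rp]
        exact hr_zero_of_PLe (PLe.refl _)
      have h3 := (dg_nul (f := (0 : TR S)) (L := fun n => ⊤) (Eventually.of_forall fun n ω ω' _ _ _ _ => rfl) (by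
        simp only [fc_top, H_bot]
        exact Nul_zero S))
      refine PLe.trans (B := rp (dg (QS.mk (0 : TR S)) 1)) (rp_mono bot_le) ?_
      exact (dg_fn (f := (0 : TR S)) (Eventually.of_forall fun n ω ω' _ _ _ _ => rfl))
    · rw [hr_rp]
      exact (h_le_H _ _).trans (H_dg_le _ le_rfl)
  full := by
    have h1 : hr (fun n => fc (Setoid.ker ((s.Q.co t).cellv 1 n))) (fun n => fc (d.L n)) = 1 := ul_eq d.sl.real
    refine h1.ge.trans ?_
    have h2 := dg_rp (TR.cor s.Q t) le_rfl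
    have hb : Part.Bd (fun n => fc (Setoid.ker ((s.Q.co t).cellv 1 n))) := rpI_Bd (((s.Q.co t).bdd 1).toInf)
    exact hr_mono hb (rp_Bd _) h2.2
  ha := fun l hl => by
    apply dg_fn
    filter_upwards [d.fa] with n hn ω ω' h1 h2 h3 h4
    show (if h : l < k + 1 then d.a n ω ⟨l, h⟩ else 0) = if h : l < k + 1 then d.a n ω' ⟨l, h⟩ else 0
    rw [hn ω ω' h1 h2 h3 h4]
  hF := fun e => by
    apply dg_nul (L := d.W0) _ d.nW
    filter_upwards [d.fΦ] with n hn ω ω' h1 h2 h3 h4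
    show (d.Φ n ω).coeff e = (d.Φ n ω').coeff e
    rw [hn ω ω' h1 h2 h3 h4]
  eq := by
    classical
    have e1 : ∑ e ∈ Finset.Iic (Finsupp.equivFunOnFinite.symm fun _ : Fin M => ⌊W⌋₊),
        QS.mk (Dt.tF d e) * ∏ j, qc s.Q j ^ (e j) = QS.mk (∑ e ∈ Finset.Iic (Finsupp.equivFunOnFinite.symm
          fun _ : Fin M => ⌊W⌋₊), Dt.tF d e * ∏ j, TR.cor s.Q j ^ (e j)) := by
      simp only [map_sum, map_mul, map_prod, map_pow]
      rfl
    have e2 : ∑ l ∈ range (k + 1), QS.mk (Dt.ta d l) * qc s.Q t ^ l =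
        QS.mk (∑ l ∈ range (k + 1), Dt.ta d l * TR.cor s.Q t ^ l) := by
      simp only [map_sum, map_mul, map_pow]
      rfl
    rw [e1, e2, mk_eq]
    obtain ⟨K, hK, h⟩ := d.eq
    refine ⟨_, K, h, hK, ?_⟩
    filter_upwards [d.wd] with n hn ω hω h1
    have e3 : TR.ev (∑ e ∈ Finset.Iic (Finsupp.equivFunOnFinite.symm fun _ : Fin M => ⌊W⌋₊),
        Dt.tF d e * ∏ j, TR.cor s.Q j ^ (e j)) n ω = MvPolynomial.eval (s.Q.v n ω) (d.Φ n ω) := by
      rw [← TR.evh_apply, map_sum, MvPolynomial.eval_eq']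
      symm
      refine (Finset.sum_subset (fun e he => dt_mem (hn ω hω e he)) fun e _ he => ?_).trans
        (Finset.sum_congr rfl fun e _ => ?_)
      · rw [MvPolynomial.notMem_support_iff.mp he, zero_mul]
      · rw [map_mul, map_prod]
        simp only [map_pow]
        rfl
    have e4 : TR.ev (∑ l ∈ range (k + 1), Dt.ta d l * TR.cor s.Q t ^ l) n ω =
        ∑ l : Fin (k + 1), d.a n ω l * s.Q.v n ω t ^ (l : ℕ) := by
      rw [← TR.evh_apply, map_sum, Finset.sum_range]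
      refine Finset.sum_congr rfl fun l _ => ?_
      rw [map_mul, map_pow]
      congr 1
      show (if h : (l : ℕ) < k + 1 then d.a n ω ⟨l, h⟩ else 0) = _
      rw [dif_pos l.isLt]
    rw [e3, e4]
    exact h1
  nd := by
    obtain ⟨K, hK, h⟩ := d.nd
    refine ⟨K, hK, h.mono ?_⟩
    filter_upwards [d.wd] with n hn ω hω h1
    obtain ⟨m, j, hj, hm, h2⟩ := h1
    refine ⟨m, dt_mem (hn ω hω m ?_), ⟨j, hj, hm⟩, h2⟩
    rw [MvPolynomial.mem_support_iff]
    intro h3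
    rw [h3, abs_zero, mul_zero] at h2
    exact absurd h2 (by norm_num)

end

theorem cq_of_CC {M k g r : ℕ} {s : MSys S (M + 2) (lin g) (Fin r)} (h : CC (M + 2) k S g r s) :
    ∃ (i : Fin r) (L : Part S) (D : Finset (Fin (M + 2) →₀ ℕ)) (F : (Fin (M + 2) →₀ ℕ) → TR S) (a : ℕ → TR S),
      CQ k s i 0 L D F a := by
  obtain ⟨t, W, ht, ⟨d⟩⟩ := h
  have h0 : t = 0 := Fin.ext ht
  subst h0
  exact ⟨_, _, _, _, _, Dt.cq d⟩

/-- **[LOW]** from the rows of the builder -/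
theorem st_low {M : ℕ} (h1 : ST_AXP) (h2 : ST_LBK) (h3 : ST_TN) (h4 : ST_AXZ) (h5 : ST_VWP (M + 1))
    (h6 : ST_VWZ (M + 1)) (h7 : ST_VWT (M + 1)) (hR : ST_R1 (M + 1)) (hX : ST_EX (M + 1)) (hN : ST_NRM (M + 1)) :
    Helper36.AM.LOW CC M := by
  intro k g r w ρ TT hT hn
  obtain ⟨TT', hT', _, hR1⟩ := hR _ g r w ρ TT hT
  have hle : ∀ i : Fin (M + 2), 1 ≤ w i := fun i => hT.one ▸ hT.mono (Fin.zero_le i)
  have hiff := weight_one_iff hT.mono hT.one hn
  have hl : 1 < w (Fin.last (M + 1)) := by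
    refine lt_of_le_of_ne (hle _) fun h => ?_
    have h1 := (hiff _).mp h.symm
    rw [Fin.val_last] at h1
    omega
  obtain ⟨N, ⟨P⟩⟩ := exists_spl (d := 0) hT.mono hT.one hl hn
  obtain ⟨r', T, c, hc, _⟩ := hX _ g r w ρ TT' hT' hR1 0 N P
  obtain ⟨l, hl⟩ := low_cco P (cls_CCo h1 h2 h3 h4 h5 h6 h7 hT' P) (hN _ g r w ρ TT' hT' 0 N r' P) hT'.trn
    (fun S s hs => cq_of_CC (hT'.cl S s hs)) hc
  refine le_trans (hT.mono ?_) hl
  rw [Fin.le_def]
  have h8 : P.vI l ≠ 0 := fun h => by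
    have h2 := P.wv l
    rw [h, hT.one] at h2
    exact lt_irrefl _ h2
  have h9 : (P.vI l).val ≠ 0 := fun h => h8 (Fin.ext h)
  show (1 : Fin (M + 2)).val ≤ _
  simp only [Fin.val_one]
  omega

end

end Pool.Agent.Helper56.LOW
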