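import Pool.Agent.Helper75.CC.Low
import Pool.Agent.Helper57.TA.Alg

/-! LOW, part 1 (exact calculus): in a corner over a line without relations, a real polynomial of the point which is a
polynomial of degree at most `k` of the height over an information above the curve of one type. -/

set_option autoImplicit false

namespace Pool.Agent.Helper56.LOW

open Finset Filter Topology Pool.Agent.Helper69.RK Pool.Agent.Helper31.EC Pool.Agent.Helper31.EC.Sp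
open Pool.Agent.Helper31.EC.QS Pool.Agent.Helper57.TA Pool.Agent.Helper5.DO Pool.Agent.Helper10.JET
open Pool.Agent.Helper75.CC
open Pool.Agent.Helper13.AM (CD)

noncomputable section

variable {S : Sp} {N r : ℕ}

/-- a polynomial which vanishes at a real point is zero -/
theorem poly_zero {Q : Polynomial (QS S)} {Λ : S.L} (hQ : Q ∈ PU Λ) {t : QS S} (ht : h (dg t 1) Λ = 1)
    (h0 : Q.eval t = 0) : Q = 0 := by
  have h2 : 1 - (0 : ℝ) ≤ h (dg t 1) (Λ ⊔ dg t 0) := by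
    have h2 := h_triangle (dg t 1) (dg t 0) Λ
    have h3 : h (dg t 0) Λ ≤ 0 := (h_le_H _ _).trans (H_dg_le _ le_rfl)
    rw [ht, sup_comm] at h2
    linarith
  have h1 : Q.eval t ∈ Id S 1 := by
    rw [h0]
    exact (Id S 1).zero_mem
  have h3 : ∀ m, tc Q t m = 0 := by
    intro m
    have h4 := hasse_small Q t hQ le_rfl one_pos h2 le_rfl h1 m
    rw [mul_zero, sub_zero, mem_Id_one] at h4
    exact h4
  ext m
  rw [coeff_tc Q t m Q.natDegree le_rfl]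
  simp [h3]

theorem low_cd' {w : Fin N → ℝ} {z : Fin N} {ρ' : ℝ} {c : CD S 0 N r} (hA : c.Ax w z ρ')
    (hN : ∀ (D : ℕ) (κ : ℝ), 0 < κ → κ ≤ 1 → NR D c.pt ⊥ κ) {Φ : MvPolynomial (Fin 1 ⊕ Fin N) (QS S)}
    (hΦ : Φ ∈ PK (⊥ : S.L)) {k : ℕ} (i₁ : Fin r) {Λ : S.L} (hΛ : c.xi i₁ ≤ Λ) (ht : h (dg (c.q 0) 1) Λ = 1)
    {P : Polynomial (QS S)} (hP : P ∈ PU Λ)
    (hk : P.natDegree ≤ k) (hy : P.eval (c.q 0) = MvPolynomial.eval c.pt Φ) {m : Fin 1 ⊕ Fin N →₀ ℕ} {j : Fin N}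
    (hm : m (Sum.inr j) ≠ 0) (hu : IsUnit (Φ.coeff m)) : ∃ l, w l ≤ k + 1 := by
  have h1 : MvPolynomial.eval₂ Polynomial.C (cvp c i₁) Φ ∈ PU (c.xi i₁) :=
    subst_mem (PK_mono bot_le hΦ) (cvp_mem c i₁)
  have h2 : (MvPolynomial.eval₂ Polynomial.C (cvp c i₁) Φ).eval (c.q 0) = MvPolynomial.eval c.pt Φ := by
    rw [eval_subst]
    congr 2
    funext j
    exact cvp_eval hA i₁ j
  have h3 : P = MvPolynomial.eval₂ Polynomial.C (cvp c i₁) Φ := by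
    rw [← sub_eq_zero]
    apply poly_zero ((PU Λ).sub_mem hP (fun m => (h1 m).trans hΛ)) ht
    rw [Polynomial.eval_sub, h2, hy, sub_self]
  exact low_cd hA hN hΦ i₁ (h3 ▸ h1) hk hy hm hu

/-- **LOW at a corner**: `x` = coordinates, `σ` = their places, `s` = real scales -/
theorem low_pt {w : Fin N → ℝ} {z : Fin N} {ρ' : ℝ} {c : CD S 0 N r} (hA : c.Ax w z ρ')
    (hN : ∀ (D : ℕ) (κ : ℝ), 0 < κ → κ ≤ 1 → NR D c.pt ⊥ κ) {n : ℕ} {σ : Fin n → Fin 1 ⊕ Fin N}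
    (hσ : Function.Injective σ) {b0 : Fin n} (hb0 : σ b0 = Sum.inl 0) {s : Fin n → ℝ} (hs : ∀ i, s i ≠ 0)
    {x : Fin n → QS S} (hx : ∀ i, x i = rcst S (s i) * c.pt (σ i)) (D : Finset (Fin n →₀ ℕ))
    (F : (Fin n →₀ ℕ) → QS S) (hF : ∀ e, dg (F e) 1 ≤ ⊥) (a : ℕ → QS S) (k : ℕ) (i₁ : Fin r) {Λ : S.L}
    (hΛ : c.xi i₁ ≤ Λ) (ht : h (dg (c.q 0) 1) Λ = 1) (ha : ∀ l ≤ k, dg (a l) 1 ≤ Λ)
    (he : ∑ e ∈ D, F e * ∏ i, x i ^ (e i) = ∑ l ∈ range (k + 1), a l * x b0 ^ l) {e0 : Fin n →₀ ℕ} (h0 : e0 ∈ D)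
    {j0 : Fin n} {j : Fin N} (hj0 : σ j0 = Sum.inr j) (hej : e0 j0 ≠ 0) (hu : IsUnit (F e0)) : ∃ l, w l ≤ k + 1 := by
  classical
  obtain ⟨Φ, hΦ⟩ : ∃ Φ : MvPolynomial (Fin 1 ⊕ Fin N) (QS S), Φ = ∑ e ∈ D, MvPolynomial.monomial (e.mapDomain σ)
    (F e * ∏ i, rcst S (s i) ^ (e i)) := ⟨_, rfl⟩
  have hk0 : ∀ e, dg (F e * ∏ i, rcst S (s i) ^ (e i)) 1 ≤ ⊥ := by
    intro e
    have h1 : F e * ∏ i, rcst S (s i) ^ (e i) ∈ Kn S 1 le_rfl ⊥ := by
      refine Subring.mul_mem _ (mem_Kn.mpr (hF e)) (Subring.prod_mem _ fun i _ => Subring.pow_mem _ ?_ _)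
      rw [mem_Kn, dg_rcst]
    exact mem_Kn.mp h1
  have hΦK : Φ ∈ PK (⊥ : S.L) := by
    rw [hΦ]
    exact Subring.sum_mem _ fun e _ => monomial_mem _ (hk0 e)
  have hev : MvPolynomial.eval c.pt Φ = ∑ e ∈ D, F e * ∏ i, x i ^ (e i) := by
    rw [hΦ, map_sum]
    refine Finset.sum_congr rfl fun e _ => ?_
    rw [MvPolynomial.eval_monomial, Finsupp.prod_mapDomain_index_inj hσ, Finsupp.prod_fintype _ _ (fun i => pow_zero _),
      mul_assoc, ← Finset.prod_mul_distrib]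
    congr 1
    refine Finset.prod_congr rfl fun i _ => ?_
    rw [hx i, mul_pow]
  have hco : Φ.coeff (e0.mapDomain σ) = F e0 * ∏ i, rcst S (s i) ^ (e0 i) := by
    rw [hΦ, MvPolynomial.coeff_sum, Finset.sum_eq_single e0]
    · rw [MvPolynomial.coeff_monomial, if_pos rfl]
    · intro e _ hne
      rw [MvPolynomial.coeff_monomial, if_neg]
      exact fun h => hne (Finsupp.mapDomain_injective hσ h)
    · exact fun h => absurd h0 h
  have hunit : ∀ i, IsUnit (rcst S (s i)) := fun i =>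
    IsUnit.of_mul_eq_one (rcst S (s i)⁻¹) (by rw [← map_mul, mul_inv_cancel₀ (hs i), map_one])
  have hcu : IsUnit (Φ.coeff (e0.mapDomain σ)) := by
    rw [hco]
    refine hu.mul ?_
    rw [IsUnit.prod_iff]
    exact fun i _ => (hunit i).pow _
  have hm : (e0.mapDomain σ) (Sum.inr j) ≠ 0 := by
    rw [← hj0, Finsupp.mapDomain_apply hσ]
    exact hej
  refine low_cd' hA hN hΦK i₁ hΛ ht (P := ∑ l ∈ range (k + 1), Polynomial.C (a l * rcst S (s b0) ^ l) *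
    Polynomial.X ^ l) ?_ ?_ ?_ hm hcu
  · refine Subring.sum_mem _ fun l hl => Subring.mul_mem _ (C_mem_PU ?_) (Subring.pow_mem _ (X_mem_PU _) _)
    have h1 : a l * rcst S (s b0) ^ l ∈ Kn S 1 le_rfl Λ := by
      refine Subring.mul_mem _ (mem_Kn.mpr (ha l (Nat.lt_succ_iff.mp (Finset.mem_range.mp hl)))) (Subring.pow_mem _ ?_ _)
      rw [mem_Kn, dg_rcst]
      exact bot_le
    exact mem_Kn.mp h1
  · refine Polynomial.natDegree_sum_le_of_forall_le _ _ fun l hl => ?_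
    exact (Polynomial.natDegree_C_mul_X_pow_le _ _).trans (Nat.lt_succ_iff.mp (Finset.mem_range.mp hl))
  · rw [hev, he, Polynomial.eval_finsetSum]
    refine Finset.sum_congr rfl fun l _ => ?_
    rw [Polynomial.eval_mul, Polynomial.eval_C, Polynomial.eval_pow, Polynomial.eval_X, hx b0, hb0, mul_pow, mul_assoc]
    rfl

end

end Pool.Agent.Helper56.LOW
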