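import Pool.Agent.Helper56.LOW.Qs
import Pool.Agent.Helper56.STL.Yys
import Pool.Agent.Helper68.VW.Vwp
import Pool.Agent.Helper99.BLD.Nlw
import Pool.Agent.Helper5.DO.TilC

/-! LOW, part 2: from a member of a homogeneous class which has a curve type of low degree to its corners. -/

set_option autoImplicit false

namespace Pool.Agent.Helper56.LOW

open Finset Filter Topology Pool.Agent.Helper69.RK Pool.Agent.Helper31.EC Pool.Agent.Helper31.EC.Sp
open Pool.Agent.Helper31.EC.QS Pool.Agent.Helper40.EL Pool.Agent.Helper84.MT Pool.Agent.Helper36.AM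
open Pool.Agent.Helper13.AM Pool.Agent.Helper10.BLD
open Pool.Agent.Helper57.TA (rcst)
open Pool.Agent.Helper68.VW (PLe_pull rp_map_PLe)
open Pool.Agent.Helper99.BLD (rp_pull)

noncomputable section

variable {S T : Sp} {m : ℕ} {E : ℕ → ℕ} {ι : Type}

/-- CURVE TYPE of low degree: over `L`, which is above the type `i`, the coordinate `t` is real, and a real polynomial of
the point which really contains another coordinate is a polynomial of degree at most `k` of the coordinate `t` -/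
structure CQ (k : ℕ) (s : MSys S m E ι) (i : ι) (t : Fin m) (L : Part S) (D : Finset (Fin m →₀ ℕ))
    (F : (Fin m →₀ ℕ) → TR S) (a : ℕ → TR S) : Prop where
  win : PLe ((s.lf i).win 0) L
  full : 1 ≤ hr (rp (dg (qc s.Q t) 1)) L
  ha : ∀ l ≤ k, PLe (rp (dg (QS.mk (a l)) 1)) L
  hF : ∀ e, dg (QS.mk (F e)) 1 ≤ ⊥
  eq : ∑ e ∈ D, QS.mk (F e) * ∏ j, qc s.Q j ^ (e j) = ∑ l ∈ range (k + 1), QS.mk (a l) * qc s.Q t ^ l
  nd : ∃ K : ℕ → ℝ, S.Sub K ∧ Typ (fun n ω => ∃ e ∈ D, (∃ j, j ≠ t ∧ e j ≠ 0) ∧ 1 ≤ K n * |TR.ev (F e) n ω|)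

theorem hr_pull (p : Pj T S) (x : S.L) (L : Part S) : hr (rp x) L ≤ hr (rp (p.map x)) (L.pull p) := by
  have h1 : hr (rp x) L = hr ((rp x).pull p) (L.pull p) := by
    unfold hr
    congr 1
    funext k
    rw [p.hn k]
    congr 1
    exact ((p.fp k).h_map (rp x k) (L k)).symm
  rw [h1]
  exact hr_mono ((rp_Bd x).pull p) (rp_Bd _) (rp_pull p x).2

theorem CQ.pull {k : ℕ} {s : MSys S m E ι} {i : ι} {t : Fin m} {L : Part S} {D : Finset (Fin m →₀ ℕ)}
    {F : (Fin m →₀ ℕ) → TR S} {a : ℕ → TR S} (h : CQ k s i t L D F a) (p : Pj T S) :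
    CQ k (s.pull p) i t (L.pull p) D (fun e => p.tr (F e)) (fun l => p.tr (a l)) where
  win := by
    have h1 := PLe_pull p h.win
    rw [← win_pull] at h1
    exact h1
  full := by
    refine h.full.trans ((hr_pull p _ L).trans (le_of_eq ?_))
    congr 2
    exact (p.qs_dg _ _).symm
  ha := fun l hl => by
    have h1 := rp_map_PLe p (h.ha l hl)
    rw [← p.qs_dg] at h1
    exact h1
  hF := fun e => by
    have h1 := p.map_mono (h.hF e)
    rw [← p.qs_dg, p.map_bot] at h1
    exact h1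
  eq := by
    have h1 := congrArg p.qs h.eq
    simp only [map_sum, map_mul, map_prod, map_pow] at h1
    exact h1
  nd := by
    obtain ⟨K, hK, hT⟩ := h.nd
    exact ⟨K, p.sub hK, p.typ hT⟩

end

end Pool.Agent.Helper56.LOW
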